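import Pool.Agent.H221Z.CayMain

set_option autoImplicit false

open Pool.Agent.H221Z.Cay

/-- The value of `k (n)` for every `n ≥ 1`: it is `n²` for squarefree `n`; it is
`(p² - 1) / 4 · (n / p)² - 1` if `p` is the least odd prime with `p² ∣ n`; and it is `n² / 4 - 1`
if `4 ∣ n` and no square of an odd prime divides `n`. -/
theorem Pool.Agent.Results.MP_9441bf_co.AExactValue.result (n : ℕ) (hn : 1 ≤ n) :
    (Squarefree n → IsK n (n ^ 2)) ∧
    (∀ p : ℕ, p.Prime → Odd p → p ^ 2 ∣ n → (∀ q : ℕ, q.Prime → Odd q → q ^ 2 ∣ n → p ≤ q) →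
      IsK n ((p ^ 2 - 1) / 4 * (n / p) ^ 2 - 1)) ∧
    (4 ∣ n → (∀ q : ℕ, q.Prime → Odd q → ¬ q ^ 2 ∣ n) → IsK n (n ^ 2 / 4 - 1)) :=
  main n hn
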